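import Pool.Agent.J4H96.AffFixed

/-!
# Affine polynomial projection is hard from every fixed polynomial

Q1 of MP_ca1301_lc.  For every fixed integer polynomial `p` in `k` variables (read as a polynomial
in the first `k` of `n` variables) it is `∃ℝ`-hard to decide, given `g`, whether
`p(x) = g(A x + b)` for some real matrix `A` and vector `b`.  In particular the general problem
is `∃ℝ`-hard.

Reduction: a system of constraints `q_c(y) = 0` becomes
`g(x, y) = p(x) + (1 + x₀² + … + x_{k-1}²) ^ e * ∑ q_c(y)²` with `2 e > deg p`.
-/

namespace Pool.Agent.Results.MP_ca1301_lc.EveryFixedPolynomial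

open Pool.Agent.NPC.H612 Pool.Agent.NPC.J4H96.AffFixed

/-- For every fixed polynomial `p ∈ ℤ[x₀, …, x_{k-1}]`, affine polynomial projection is `∃ℝ`-hard
already on the instances `(n, f, g)` with `k ≤ n` and `f = p`. -/
theorem result {k : ℕ} (p : MvPolynomial (Fin k) ℤ) :
    ERHardWithin (fun I : AffInst => ∃ h : k ≤ I.1,
      I.2.1.toPoly I.1 = MvPolynomial.rename (Fin.castLE h) p) AffineProjection :=
  affine_hard_fixed p

end Pool.Agent.Results.MP_ca1301_lc.EveryFixedPolynomial
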